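import Mathlib

set_option autoImplicit false

open Set Filter Topology Metric

namespace H661Z.EAC

/-- Analytic description of a (component of a) punctured algebraic curve in the torus. -/
structure CData (n : ℕ) (T : Type) [TopologicalSpace T] where
  S : Set T
  y : T → Fin n → ℂ
  conn : IsPreconnected S
  ne : S.Nonempty
  y_ne : ∀ z ∈ S, ∀ j, y z j ≠ 0
  chart : ∀ z ∈ S, ∃ (χ : ℂ → T) (r : ℝ), 0 < r ∧ χ 0 = z ∧
    (∀ ζ ∈ ball (0 : ℂ) r, χ ζ ∈ S ∧ map χ (𝓝 ζ) = 𝓝[S] (χ ζ)) ∧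
    ∀ j, DifferentiableOn ℂ (fun ζ => y (χ ζ) j) (ball (0 : ℂ) r)
  ι : Type
  fin : Fintype ι
  e : ι → ℂ → T
  v : ι → Fin n → ℤ
  φ : ι → ℂ → Fin n → ℂ
  e_mem : ∀ p s, s.re < 2 → e p s ∈ S ∧ map (e p) (𝓝 s) = 𝓝[S] (e p s)
  φ_diff : ∀ p, DifferentiableOn ℂ (φ p) (ball (0 : ℂ) (Real.exp 2))
  y_e : ∀ p s, s.re < 2 → ∀ j, y (e p s) j = Complex.exp (v p j * s + φ p (Complex.exp s) j)
  K : Set T
  K_cpt : IsCompact K
  K_sub : K ⊆ S
  cover : ∀ z ∈ S, z ∈ K ∨ ∃ p s, s.re ≤ 0 ∧ z = e p s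
  free : ∀ m : Fin n → ℤ, m ≠ 0 → ∀ c : ℂ, ∃ z ∈ S, ∏ j, y z j ^ m j ≠ c

/-- Polynomial functions of degree less than `d`. -/
def IsP {n : ℕ} : ℕ → ((Fin n → ℂ) → ℂ) → Prop
  | 0, f => f = 0
  | d + 1, f => ∃ (c : ℂ) (G : Fin n → (Fin n → ℂ) → ℂ), (∀ j, IsP d (G j)) ∧
      f = fun x => c + ∑ j, x j * G j x

/-- The lattice point `2 π i k`. -/
noncomputable def lat {n : ℕ} (k : Fin n → ℤ) : Fin n → ℂ := fun j => 2 * Real.pi * Complex.I * k j

/-- The purely imaginary vector `i β`. -/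
noncomputable def imv {n : ℕ} (β : Fin n → ℝ) : Fin n → ℂ := fun j => (β j : ℂ) * Complex.I

/-- A real vector as a complex vector. -/
noncomputable def rev {n : ℕ} (β : Fin n → ℝ) : Fin n → ℂ := fun j => (β j : ℂ)

namespace CData

variable {n : ℕ} {T : Type} [TopologicalSpace T] (D : CData n T)

/-- `x` is a logarithm of the point `z`. -/
def Over (z : T) (x : Fin n → ℂ) : Prop := ∀ j, Complex.exp (x j) = D.y z j

/-- The preimage of the curve under the exponential map. -/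
def X : Set (Fin n → ℂ) := {x | ∃ z ∈ D.S, D.Over z x}

/-- The complex direction vector of an end. -/
noncomputable def vc (p : D.ι) : Fin n → ℂ := fun j => (D.v p j : ℂ)

/-- The standard logarithm along an end. -/
noncomputable def xe (p : D.ι) (s : ℂ) : Fin n → ℂ := s • D.vc p + D.φ p (Complex.exp s)

end CData

end H661Z.EAC
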