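import Mathlib

set_option autoImplicit false

open Set Filter Topology Metric Complex

namespace H661Z.EAC

theorem exists_log_ball {G : ℂ → ℂ} {c : ℂ} {R : ℝ} (hR : 0 < R)
    (hd : DifferentiableOn ℂ G (ball c R)) (h0 : ∀ z ∈ ball c R, G z ≠ 0) :
    ∃ f : ℂ → ℂ, DifferentiableOn ℂ f (ball c R) ∧ f c = 0 ∧
      ∀ z ∈ ball c R, G z = G c * exp (f z) := by
  have h1 : DifferentiableOn ℂ (fun z => deriv G z / G z) (ball c R) :=
    (hd.deriv isOpen_ball).div hd h0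
  obtain ⟨f, hf0, hf⟩ := h1.isExactOn_ball.with_val_at c 0
  have hfd : DifferentiableOn ℂ f (ball c R) :=
    fun z hz => (hf z hz).differentiableAt.differentiableWithinAt
  refine ⟨f, hfd, hf0, fun z hz => ?_⟩
  have h2 : ∀ w ∈ ball c R, HasDerivAt (fun w => G w * exp (-f w)) 0 w := by
    intro w hw
    have hG : HasDerivAt G (deriv G w) w :=
      ((hd w hw).differentiableAt (isOpen_ball.mem_nhds hw)).hasDerivAt
    have h4 : HasDerivAt (fun w => G w * exp (-f w))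
        (deriv G w * exp (-f w) + G w * (exp (-f w) * -(deriv G w / G w))) w :=
      hG.mul (hf w hw).neg.cexp
    convert h4 using 1
    have := h0 w hw
    field_simp
    ring
  have h3 := isOpen_ball.is_const_of_deriv_eq_zero (convex_ball c R).isPreconnected
    (fun w hw => (h2 w hw).differentiableAt.differentiableWithinAt)
    (fun w hw => (h2 w hw).deriv) hz (mem_ball_self hR)
  simp only [hf0, neg_zero, exp_zero, mul_one] at h3
  rw [← h3, mul_assoc, ← exp_add]; simp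

theorem lower_bound_ball {G : ℂ → ℂ} {c : ℂ} {R M : ℝ} (hR : 0 < R) (hM : 0 < M)
    (hd : DifferentiableOn ℂ G (ball c R)) (h0 : ∀ z ∈ ball c R, G z ≠ 0)
    (hb : ∀ z ∈ ball c R, ‖G z‖ ≤ ‖G c‖ * Real.exp M) {z : ℂ} (hz : z ∈ ball c R) :
    ‖G c‖ * Real.exp (-(2 * M * ‖z - c‖ / (R - ‖z - c‖))) ≤ ‖G z‖ := by
  obtain ⟨f, hfd, hf0, hf⟩ := exists_log_ball hR hd h0
  have hc : 0 < ‖G c‖ := norm_pos_iff.mpr (h0 c (mem_ball_self hR))
  have hmem : ∀ w ∈ ball (0 : ℂ) R, c + w ∈ ball c R := fun w hw => by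
    simpa [mem_ball, dist_eq_norm] using hw
  have h1 : DifferentiableOn ℂ (fun w => f (c + w)) (ball 0 R) :=
    hfd.comp (by fun_prop) hmem
  have h2 : MapsTo (fun w => f (c + w)) (ball 0 R) {z | z.re ≤ M} := by
    intro w hw
    have h3 := hb _ (hmem w hw)
    rw [hf _ (hmem w hw), norm_mul, norm_exp] at h3
    have := le_of_mul_le_mul_left h3 hc
    exact Real.exp_le_exp.mp this
  have hz' : z - c ∈ ball (0 : ℂ) R := by simpa [mem_ball, dist_eq_norm] using hz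
  have h4 := borelCaratheodory_zero hM h1 h2 hR hz' (by simpa using hf0)
  simp only [add_sub_cancel] at h4
  rw [hf z hz, norm_mul, norm_exp]
  gcongr
  have := neg_le_of_abs_le ((abs_re_le_norm (f z)).trans h4)
  linarith

theorem poly_lower (P : Polynomial ℂ) (hP : P ≠ 0) :
    ∃ c R : ℝ, 0 < c ∧ ∀ s : ℂ, R ≤ ‖s‖ → 2 * c ≤ ‖P.eval s‖ := by
  by_cases h : 0 < P.degree
  · have h1 := P.tendsto_norm_atTop h (tendsto_comap (f := fun s : ℂ => ‖s‖) (x := atTop))
    have h2 := h1.eventually (eventually_ge_atTop 2)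
    rw [eventually_comap, eventually_atTop] at h2
    obtain ⟨R, hR⟩ := h2
    exact ⟨1, R, one_pos, fun s hs => by simpa using hR _ hs s rfl⟩
  · push Not at h
    have h1 := Polynomial.eq_C_of_degree_le_zero h
    have h2 : P.coeff 0 ≠ 0 := fun h3 => hP (by rw [h1, h3]; simp)
    refine ⟨‖P.coeff 0‖ / 2, 0, by positivity, fun s _ => ?_⟩
    rw [h1]; simp; linarith

theorem poly_le_exp (A κ c : ℝ) (d : ℕ) (hc : 0 < c) :
    ∀ᶠ ρ : ℝ in atTop, A * (1 + κ + 2 * ρ + ρ ^ 2) ^ d ≤ c * Real.exp ρ := by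
  open Polynomial in
  have h := Polynomial.tendsto_div_exp_atTop (C A * (C (1 + κ) + C 2 * X + X ^ 2) ^ d)
  filter_upwards [h.eventually (ge_mem_nhds hc)] with ρ hρ
  simp only [eval_mul, eval_C, eval_pow, eval_add, eval_X] at hρ
  rwa [div_le_iff₀ (Real.exp_pos ρ)] at hρ

/-- The Phragmen-Lindeloef lemma used on the ends. -/
theorem pl_main {G H : ℂ → ℂ} {κ A C : ℝ} {d : ℕ} (hκ : 0 < κ) (hA : 0 ≤ A)
    (hG : DifferentiableOn ℂ G {s | s.re < κ}) (hH : DifferentiableOn ℂ H {s | s.re < κ})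
    (h0 : ∀ s : ℂ, s.re < κ → G s ≠ 0)
    (hGb : ∀ s : ℂ, s.re < κ → ‖G s‖ ≤ A * (1 + ‖s‖) ^ d)
    (hHb : ∀ s : ℂ, s.re < κ → ‖H s‖ ≤ A * (1 + ‖s‖) ^ d)
    (P : Polynomial ℂ) (hP : P ≠ 0)
    (hGP : ∀ s : ℂ, s.re < 0 → ‖G s - P.eval s‖ ≤ A * Real.exp s.re * (1 + ‖s‖) ^ d)
    (hC : ∀ s : ℂ, s.re = 0 → ‖H s‖ ≤ C * ‖G s‖) {s : ℂ} (hs : s.re ≤ 0) :
    ‖H s‖ ≤ C * ‖G s‖ := by
  obtain ⟨c, R0, hc, hPl⟩ := poly_lower P hP
  have hev : ∀ᶠ ρ : ℝ in atTop, A * (1 + κ + 2 * ρ + ρ ^ 2) ^ d ≤ c * Real.exp ρ ∧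
      max R0 2 ≤ ρ := (poly_le_exp A κ c d hc).and (eventually_ge_atTop _)
  obtain ⟨ρ0, hρ0⟩ := eventually_atTop.mp hev
  have L0 : ∀ ρ, ρ0 ≤ ρ → ∀ t : ℝ, 0 ≤ t → t ≤ κ + 2 * ρ + ρ ^ 2 →
      A * (1 + t) ^ d ≤ c * Real.exp ρ := by
    intro ρ hρ t ht0 ht
    refine le_trans ?_ (hρ0 ρ hρ).1
    exact mul_le_mul_of_nonneg_left (pow_le_pow_left₀ (by linarith) (by linarith) d) hA
  have L1 : ∀ ρ, ρ0 ≤ ρ → ∀ w : ℂ, w.re ≤ -ρ → ρ ≤ ‖w‖ → ‖w‖ ≤ ρ ^ 2 + ρ → c ≤ ‖G w‖ := by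
    intro ρ hρ w h1 h2 h3
    have h4 := (hρ0 ρ hρ).2
    have h5 : R0 ≤ ρ := (le_max_left _ _).trans h4
    have h6 : 2 ≤ ρ := (le_max_right _ _).trans h4
    have h7 := hPl w (h5.trans h2)
    have h8 := hGP w (by linarith)
    have h9 := L0 ρ hρ ‖w‖ (norm_nonneg _) (by linarith)
    have h10 : A * Real.exp w.re * (1 + ‖w‖) ^ d ≤ c := by
      calc _ = Real.exp w.re * (A * (1 + ‖w‖) ^ d) := by ring
        _ ≤ Real.exp (-ρ) * (c * Real.exp ρ) := by gcongr
        _ = c := by rw [Real.exp_neg]; field_simp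
    have h11 := norm_sub_norm_le (P.eval w) (G w)
    rw [norm_sub_rev] at h11
    linarith
  have L2 : ∀ ρ, ρ0 ≤ ρ → ∀ w : ℂ, w.re ≤ 0 → ‖w‖ = ρ ^ 2 →
      c * Real.exp (-(4 / κ * ‖w‖)) ≤ ‖G w‖ := by
    intro ρ hρ w h1 h2
    have h6 : 2 ≤ ρ := (le_max_right _ _).trans (hρ0 ρ hρ).2
    have hn : ‖(ρ : ℂ)‖ = ρ := by rw [norm_real, Real.norm_eq_abs, abs_of_nonneg (by linarith)]
    have a1 : ‖w - ρ‖ ≤ ρ ^ 2 + ρ := (norm_sub_le _ _).trans (by rw [h2, hn])
    have a2 : ρ ≤ ‖w - ρ‖ := by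
      have := norm_sub_norm_le w ρ
      rw [h2, hn] at this; nlinarith
    have a3 : c ≤ ‖G (w - ρ)‖ := L1 ρ hρ _ (by simp; linarith) a2 a1
    have hsub : ∀ z ∈ ball (w - ρ) (ρ + κ / 2), z.re < κ := by
      intro z hz
      rw [mem_ball, dist_eq_norm] at hz
      have := (abs_re_le_norm (z - (w - ρ))).trans_lt hz
      have := (abs_lt.mp this).2
      simp at this; linarith
    have a4 := lower_bound_ball (G := G) (c := w - ρ) (R := ρ + κ / 2) (M := ρ) (by linarith)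
      (by linarith) (hG.mono hsub) (fun z hz => h0 z (hsub z hz)) (fun z hz => ?_) (z := w) (by
        rw [mem_ball, dist_eq_norm]; simp; rw [abs_of_nonneg (by linarith)]; linarith)
    · have a5 : ‖w - (w - ρ)‖ = ρ := by simpa using hn
      rw [a5] at a4
      have a6 : 2 * ρ * ρ / (ρ + κ / 2 - ρ) = 4 / κ * ‖w‖ := by
        rw [h2, show ρ + κ / 2 - ρ = κ / 2 by ring]; field_simp; ring
      rw [a6] at a4
      exact le_trans (by gcongr) a4
    · refine (hGb z (hsub z hz)).trans ((L0 ρ hρ _ (norm_nonneg _) ?_).trans (by gcongr))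
      rw [mem_ball, dist_eq_norm] at hz
      have := norm_add_le (z - (w - ρ)) (w - ρ)
      simp only [sub_add_cancel] at this
      linarith
  have hsq : ∀ t : ℝ, (max ρ0 0) ^ 2 ≤ t → ρ0 ≤ √t ∧ t = √t ^ 2 := by
    intro t ht
    have h1 : 0 ≤ t := le_trans (sq_nonneg _) ht
    refine ⟨(le_max_left _ 0).trans (Real.le_sqrt_of_sq_le ht), (Real.sq_sqrt h1).symm⟩
  have key : ∀ ε : ℝ, 0 < ε → ‖H s / G s * exp (ε * s)‖ ≤ C := by
    intro ε hε
    have := PhragmenLindelof.right_half_plane_of_bounded_on_real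
      (f := fun z => H (-z) / G (-z) * exp (ε * (-z))) (C := C) (z := -s) ?_ ?_ ?_ ?_
      (by simpa using hs)
    · simpa using this
    · apply DifferentiableOn.diffContOnCl
      rw [closure_setOfPred_lt_re]
      have hm : MapsTo (fun z : ℂ => -z) {z | 0 ≤ z.re} {s | s.re < κ} := by
        intro z hz
        simp only [mem_ofPred_eq, neg_re] at hz ⊢; linarith
      refine DifferentiableOn.mul (DifferentiableOn.div ?_ ?_ ?_) (by fun_prop)
      · exact hH.comp (by fun_prop) hm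
      · exact hG.comp (by fun_prop) hm
      · intro z hz; exact h0 _ (hm hz)
    · refine ⟨1, one_lt_two, 4 / κ + 1, Asymptotics.IsBigO.of_bound 1 ?_⟩
      rw [eventually_inf_principal]
      filter_upwards [(tendsto_norm_cobounded_atTop (E := ℂ)).eventually (eventually_ge_atTop ((max ρ0 0) ^ 2))]
        with z hz hz'
      have hz : (max ρ0 0) ^ 2 ≤ ‖z‖ := hz
      have hz' : 0 < z.re := hz'
      obtain ⟨b1, b2⟩ := hsq _ hz
      have h6 : 2 ≤ √‖z‖ := (le_max_right _ _).trans (hρ0 _ b1).2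
      have b3 := L2 _ b1 (-z) (by simp; linarith) (by rw [norm_neg]; exact b2)
      have b4 := hHb (-z) (by simp; linarith)
      rw [norm_neg] at b3 b4
      have b5 := L0 _ b1 ‖z‖ (norm_nonneg _) (by nlinarith)
      have b6 : ‖exp (ε * (-z))‖ ≤ 1 := by
        rw [norm_exp, Real.exp_le_one_iff]; simp; positivity
      have b7 : Real.exp √‖z‖ ≤ Real.exp ‖z‖ := Real.exp_le_exp.mpr (by nlinarith)
      rw [one_mul, Real.norm_eq_abs, abs_of_pos (Real.exp_pos _), Real.rpow_one, norm_mul,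
        norm_div]
      have b8 : ‖H (-z)‖ / ‖G (-z)‖ ≤ c * Real.exp ‖z‖ / (c * Real.exp (-(4 / κ * ‖z‖))) := by
        gcongr
        exact b4.trans (b5.trans (by gcongr))
      calc _ ≤ c * Real.exp ‖z‖ / (c * Real.exp (-(4 / κ * ‖z‖))) * 1 := by gcongr
        _ = _ := by
          rw [mul_one, mul_div_mul_left _ _ hc.ne', ← Real.exp_sub]; congr 1; ring
    · refine ⟨1, ?_⟩
      rw [eventually_map]
      filter_upwards [eventually_ge_atTop ((max ρ0 0) ^ 2), eventually_ge_atTop ((1 / ε) ^ 2)]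
        with x hx hx'
      obtain ⟨b1, b2⟩ := hsq _ hx
      have h6 : 2 ≤ √x := (le_max_right _ _).trans (hρ0 _ b1).2
      have hx0 : 0 ≤ x := le_trans (sq_nonneg _) hx
      have hn : ‖(-x : ℂ)‖ = x := by rw [norm_neg, norm_real, Real.norm_eq_abs, abs_of_nonneg hx0]
      have b0 : √x ≤ x := by nlinarith
      have b3 := L1 _ b1 (-x) (by simpa using b0) (by rw [hn]; exact b0) (by rw [hn]; nlinarith)
      have b4 := hHb (-x) (by simp; linarith)
      rw [hn] at b4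
      have b5 := L0 _ b1 x hx0 (by nlinarith)
      have b6 : 1 / ε ≤ √x := Real.le_sqrt_of_sq_le hx'
      rw [div_le_iff₀ hε] at b6
      rw [norm_mul, norm_div, norm_exp]
      have b8 : ‖H (-x)‖ / ‖G (-x)‖ ≤ c * Real.exp √x / c := by
        gcongr; exact b4.trans b5
      calc _ ≤ c * Real.exp √x / c * Real.exp (ε * (-x : ℂ)).re := by gcongr
        _ = Real.exp (√x - ε * x) := by
          rw [mul_div_cancel_left₀ _ hc.ne', ← Real.exp_add]; congr 1; simp; ring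
        _ ≤ 1 := by rw [Real.exp_le_one_iff]; nlinarith
    · intro x
      have b1 : (-(x * I : ℂ)).re = 0 := by simp
      have b2 := hC _ b1
      have b3 : 0 < ‖G (-(x * I))‖ := norm_pos_iff.mpr (h0 _ (by rw [b1]; exact hκ))
      rw [norm_mul, norm_div, norm_exp]
      have : (ε * (-(x * I)) : ℂ).re = 0 := by simp
      rw [this, Real.exp_zero, mul_one, div_le_iff₀ b3]; exact b2
  have h1 : ‖H s / G s‖ ≤ C := by
    have hcont : Continuous fun ε : ℝ => ‖H s / G s * exp (ε * s)‖ := by fun_prop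
    have h2 := (hcont.tendsto 0).mono_left (nhdsWithin_le_nhds (s := Ioi 0))
    have h3 := le_of_tendsto h2 (by
      filter_upwards [self_mem_nhdsWithin] with ε hε using key ε hε)
    simpa using h3
  have b3 : 0 < ‖G s‖ := norm_pos_iff.mpr (h0 _ (by linarith))
  rwa [norm_div, div_le_iff₀ b3] at h1

/-- domination on a ball gives a zero-free ball -/
theorem ne_zero_of_dom {E : Type*} [NormedAddCommGroup E] [NormedSpace ℂ E] {f : E → ℂ}
    (hf : Differentiable ℂ f) {x : E} {r C : ℝ} (hr : 0 < r) (hC : 0 ≤ C) (hx : f x ≠ 0)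
    (h : ∀ η : E, ‖η‖ ≤ r → ‖f (x + η)‖ ≤ C * ‖f x‖) (η : E) (hη : ‖η‖ < r / (C + 1)) :
    f (x + η) ≠ 0 := by
  have hη' : ‖η‖ < r := hη.trans_le (div_le_self hr.le (by linarith))
  have h1 := dist_le_div_mul_dist_of_mapsTo_ball (f := f) (c := x) (R₁ := r)
    (R₂ := (C + 1) * ‖f x‖) (z := x + η) hf.differentiableOn (fun w hw => ?_)
    (by simpa [mem_ball, dist_eq_norm] using hη')
  · intro h2
    rw [h2, dist_eq_norm, dist_eq_norm, zero_sub, norm_neg, add_sub_cancel_left] at h1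
    have h3 : 0 < ‖f x‖ := norm_pos_iff.mpr hx
    rw [lt_div_iff₀ (by linarith)] at hη
    rw [div_mul_eq_mul_div, le_div_iff₀ hr] at h1
    nlinarith
  · rw [mem_ball, dist_eq_norm] at hw
    have := h (w - x) hw.le
    rw [add_sub_cancel] at this
    rw [mem_closedBall, dist_eq_norm]
    have := norm_sub_le (f w) (f x)
    linarith

/-- Schwarz estimate in the disc -/
theorem schwarz_disc {g : ℂ → ℂ} {M : ℝ} (hg : DifferentiableOn ℂ g (ball 0 1))
    (hM : ∀ w ∈ ball (0 : ℂ) 1, ‖g w‖ ≤ M) {w : ℂ} (hw : w ∈ ball (0 : ℂ) 1) :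
    ‖g w - g 0‖ ≤ 2 * M * ‖w‖ := by
  have h1 := dist_le_div_mul_dist_of_mapsTo_ball (f := g) (c := 0) (R₁ := 1)
    (R₂ := 2 * M) (z := w) hg (fun w hw => ?_) hw
  · simpa [dist_eq_norm] using h1
  · rw [mem_closedBall, dist_eq_norm]
    have := norm_sub_le (g w) (g 0)
    linarith [hM w hw, hM 0 (mem_ball_self one_pos)]

/-- Hurwitz along an ultrafilter -/
theorem hurwitz {α : Type*} (U : Ultrafilter α) {g : α → ℂ → ℂ} {f : ℂ → ℂ} {c : ℂ} {R : ℝ}
    (hR : 0 < R) (hf : AnalyticAt ℂ f c) (hne : ¬ ∀ᶠ z in 𝓝 c, f z = 0)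
    (hg : ∀ᶠ k in U, DifferentiableOn ℂ (g k) (ball c R) ∧ ∀ z ∈ ball c R, g k z ≠ 0)
    (hlim : ∀ (z : α → ℂ) (z₀ : ℂ), z₀ ∈ ball c R → Tendsto z U (𝓝 z₀) →
      Tendsto (fun k => g k (z k)) U (𝓝 (f z₀))) : f c ≠ 0 := by
  have h1 := hf.eventually_eq_zero_or_eventually_ne_zero.resolve_left hne
  rw [eventually_nhdsWithin_iff] at h1
  obtain ⟨r, hr, h2⟩ := nhds_basis_closedBall.eventually_iff.mp (h1.and (ball_mem_nhds c hR))
  have hsub : closedBall c r ⊆ ball c R := fun z hz => (h2 hz).2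
  have hex : ∀ k, ∃ z ∈ sphere c r, (DifferentiableOn ℂ (g k) (ball c R) ∧
      ∀ z ∈ ball c R, g k z ≠ 0) → ‖g k z‖ ≤ ‖g k c‖ := by
    intro k
    by_cases hk : DifferentiableOn ℂ (g k) (ball c R) ∧ ∀ z ∈ ball c R, g k z ≠ 0
    · have hd : DifferentiableOn ℂ (fun z => (g k z)⁻¹) (closedBall c r) :=
        (hk.1.mono hsub).inv fun z hz => hk.2 z (hsub hz)
      obtain ⟨z, hz, hz'⟩ := (isCompact_sphere c r).exists_isMaxOn
        (f := fun z => ‖(g k z)⁻¹‖) (NormedSpace.sphere_nonempty.mpr hr.le)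
        (hd.continuousOn.norm.mono sphere_subset_closedBall)
      refine ⟨z, hz, fun _ => ?_⟩
      have h3 := norm_le_of_forall_mem_frontier_norm_le (f := fun z => (g k z)⁻¹)
        (U := ball c r) isBounded_ball (by
          apply DifferentiableOn.diffContOnCl; rwa [closure_ball c hr.ne']) (C := ‖(g k z)⁻¹‖)
        (fun w hw => hz' (by rwa [frontier_ball c hr.ne'] at hw)) (z := c)
        (subset_closure (mem_ball_self hr))
      rw [norm_inv, norm_inv] at h3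
      have p1 : 0 < ‖g k c‖ := norm_pos_iff.mpr (hk.2 c (mem_ball_self hR))
      have p2 : 0 < ‖g k z‖ := norm_pos_iff.mpr (hk.2 z (hsub (sphere_subset_closedBall hz)))
      exact (inv_le_inv₀ p1 p2).mp h3
    · obtain ⟨z, hz⟩ := (NormedSpace.sphere_nonempty (x := c)).mpr hr.le
      exact ⟨z, hz, fun h => absurd h hk⟩
  choose z hz hz' using hex
  obtain ⟨z₀, hz₀, hzl⟩ := (isCompact_sphere c r).ultrafilter_le_nhds (U.map z) (by
    rw [le_principal_iff, Ultrafilter.mem_coe, Ultrafilter.mem_map]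
    exact univ_mem' hz)
  have hzl : Tendsto z U (𝓝 z₀) := hzl
  have h4 := (hlim z z₀ (hsub (sphere_subset_closedBall hz₀)) hzl).norm
  have h5 := (hlim (fun _ => c) c (mem_ball_self hR) tendsto_const_nhds).norm
  have h6 := le_of_tendsto_of_tendsto h4 h5 (hg.mono fun k hk => hz' k hk)
  have h7 : f z₀ ≠ 0 := (h2 (sphere_subset_closedBall hz₀)).1 (by
    rintro rfl
    rw [mem_sphere, dist_self] at hz₀; exact hr.ne hz₀)
  intro h8
  rw [h8, norm_zero] at h6
  exact h7 (norm_le_zero_iff.mp h6)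

/-- projective compactness of finite dimensional spaces of continuous functions -/
theorem proj_compact {α Y : Type*} [TopologicalSpace Y] (U : Ultrafilter α)
    (V : Submodule ℂ (Y → ℂ)) [FiniteDimensional ℂ V] (hV : ∀ f ∈ V, Continuous f)
    (f : α → Y → ℂ) (hf : ∀ k, f k ∈ V) (hf0 : ∀ k, f k ≠ 0) :
    ∃ (c : α → ℂ) (g : Y → ℂ), (∀ k, c k ≠ 0) ∧ g ∈ V ∧ g ≠ 0 ∧
      ∀ (x : α → Y) (x₀ : Y), Tendsto x U (𝓝 x₀) →
        Tendsto (fun k => c k * f k (x k)) U (𝓝 (g x₀)) := by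
  let b := Module.finBasis ℂ V
  let a : α → Fin (Module.finrank ℂ V) → ℂ := fun k => b.equivFun ⟨f k, hf k⟩
  have ha : ∀ k, a k ≠ 0 := fun k h => hf0 k (by
    have := b.equivFun.map_eq_zero_iff.mp h
    exact congrArg Subtype.val this)
  have hn : ∀ k, (‖a k‖ : ℂ) ≠ 0 := fun k => by exact_mod_cast norm_ne_zero_iff.mpr (ha k)
  let a' : α → Fin (Module.finrank ℂ V) → ℂ := fun k => (‖a k‖ : ℂ)⁻¹ • a k
  have ha' : ∀ k, a' k ∈ sphere (0 : Fin (Module.finrank ℂ V) → ℂ) 1 := fun k => by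
    rw [mem_sphere_zero_iff_norm, norm_smul, norm_inv, norm_real, norm_norm,
      inv_mul_cancel₀ (norm_ne_zero_iff.mpr (ha k))]
  obtain ⟨l, hl, hl'⟩ := (isCompact_sphere _ _).ultrafilter_le_nhds (U.map a') (by
    rw [le_principal_iff, Ultrafilter.mem_coe, Ultrafilter.mem_map]
    exact univ_mem' ha')
  have hl' : Tendsto a' U (𝓝 l) := hl'
  have hrep : ∀ (u : Fin (Module.finrank ℂ V) → ℂ) (y : Y),
      (b.equivFun.symm u : Y → ℂ) y = ∑ i, u i * (b i : Y → ℂ) y := by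
    intro u y
    rw [b.equivFun_symm_apply]
    simp
  refine ⟨fun k => (‖a k‖ : ℂ)⁻¹, b.equivFun.symm l, fun k => inv_ne_zero (hn k),
    (b.equivFun.symm l).2, fun h => ?_, fun x x₀ hx => ?_⟩
  · have h1 : b.equivFun.symm l = 0 := Subtype.ext h
    have h2 := b.equivFun.symm.map_eq_zero_iff.mp h1
    rw [h2] at hl; simp at hl
  · have h1 : ∀ k, (‖a k‖ : ℂ)⁻¹ * f k (x k) = ∑ i, a' k i * (b i : Y → ℂ) (x k) := by
      intro k
      have h2 : f k = (b.equivFun.symm (a k) : Y → ℂ) := by simp [a]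
      rw [h2, hrep, Finset.mul_sum]
      refine Finset.sum_congr rfl fun i _ => ?_
      simp [a', mul_assoc]
    simp only [h1, hrep]
    refine tendsto_finsetSum _ fun i _ => ?_
    exact ((continuous_apply i).tendsto l |>.comp hl').mul (((hV _ (b i).2).tendsto x₀).comp hx)

end H661Z.EAC
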