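import Pool.Agent.H661Z.EAC.Data

set_option autoImplicit false

open Set Filter Topology Metric

namespace H661Z.EAC

variable {n : ℕ}

theorem IsP.zero : ∀ d : ℕ, IsP (n := n) d 0
  | 0 => rfl
  | d + 1 => ⟨0, fun _ => 0, fun _ => IsP.zero d, by ext x; simp⟩

theorem IsP.add : ∀ {d : ℕ} {f g : (Fin n → ℂ) → ℂ}, IsP d f → IsP d g → IsP d (f + g)
  | 0, f, g, hf, hg => by
    have hf : f = 0 := hf
    have hg : g = 0 := hg
    show f + g = 0
    simp [hf, hg]
  | d + 1, f, g, ⟨c, G, hG, hf⟩, ⟨c', G', hG', hg⟩ =>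
    ⟨c + c', fun j => G j + G' j, fun j => IsP.add (hG j) (hG' j), by
      ext x; simp only [hf, hg, Pi.add_apply, mul_add, Finset.sum_add_distrib]; ring⟩

theorem IsP.smul (a : ℂ) : ∀ {d : ℕ} {f : (Fin n → ℂ) → ℂ}, IsP d f → IsP d (a • f)
  | 0, f, hf => by
    have hf : f = 0 := hf
    show a • f = 0
    simp [hf]
  | d + 1, f, ⟨c, G, hG, hf⟩ =>
    ⟨a * c, fun j => a • G j, fun j => IsP.smul a (hG j), by
      ext x; simp only [hf, Pi.smul_apply, smul_eq_mul, mul_add, Finset.mul_sum]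
      congr 1; refine Finset.sum_congr rfl fun j _ => by ring⟩

/-- The space of polynomial functions of degree less than `d`. -/
def Vp (n d : ℕ) : Submodule ℂ ((Fin n → ℂ) → ℂ) where
  carrier := {f | IsP d f}
  add_mem' := fun hf hg => IsP.add hf hg
  zero_mem' := IsP.zero d
  smul_mem' := fun a _ hf => IsP.smul a hf

theorem mem_Vp {d : ℕ} {f : (Fin n → ℂ) → ℂ} : f ∈ Vp n d ↔ IsP d f := Iff.rfl

theorem IsP.sub {d : ℕ} {f g : (Fin n → ℂ) → ℂ} (hf : IsP d f) (hg : IsP d g) :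
    IsP d (f - g) := (Vp n d).sub_mem hf hg

theorem IsP.sum {d : ℕ} {α : Type*} (s : Finset α) (f : α → (Fin n → ℂ) → ℂ)
    (h : ∀ a ∈ s, IsP d (f a)) : IsP d (fun x => ∑ a ∈ s, f a x) := by
  have := (Vp n d).sum_mem (t := s) (f := f) h
  rw [mem_Vp] at this
  convert this using 1
  ext x; simp

theorem IsP.cmul (a : ℂ) {d : ℕ} {f : (Fin n → ℂ) → ℂ} (hf : IsP d f) :
    IsP d (fun x => a * f x) := IsP.smul a hf

theorem IsP.const (d : ℕ) (c : ℂ) : IsP (n := n) (d + 1) (fun _ => c) :=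
  ⟨c, fun _ => 0, fun _ => IsP.zero d, by ext x; simp⟩

theorem IsP.succ : ∀ {d : ℕ} {f : (Fin n → ℂ) → ℂ}, IsP d f → IsP (d + 1) f
  | 0, f, hf => by
    have hf : f = 0 := hf
    rw [hf]; exact IsP.zero _
  | d + 1, f, ⟨c, G, hG, hf⟩ => ⟨c, G, fun j => IsP.succ (hG j), hf⟩

theorem IsP.mono {d e : ℕ} {f : (Fin n → ℂ) → ℂ} (hf : IsP d f) (h : d ≤ e) : IsP e f := by
  induction h with
  | refl => exact hf
  | step _ ih => exact ih.succ

theorem IsP.mulX {d : ℕ} {f : (Fin n → ℂ) → ℂ} (hf : IsP d f) (j : Fin n) :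
    IsP (d + 1) (fun x => x j * f x) := by
  refine ⟨0, fun i => if i = j then f else 0, fun i => ?_, ?_⟩
  · by_cases h : i = j
    · simp [h, hf]
    · simp only [h, if_false]; exact IsP.zero d
  · ext x
    rw [zero_add, Finset.sum_eq_single j]
    · simp
    · intro b _ hb; simp [hb]
    · simp

theorem IsP.differentiable : ∀ {d : ℕ} {f : (Fin n → ℂ) → ℂ}, IsP d f → Differentiable ℂ f
  | 0, f, hf => by
    have hf : f = 0 := hf
    rw [hf]; exact differentiable_const (c := (0 : ℂ))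
  | d + 1, f, ⟨c, G, hG, hf⟩ => by
    rw [hf]
    have h1 := fun j => IsP.differentiable (hG j)
    refine (differentiable_const c).add ?_
    refine Differentiable.fun_sum fun j _ => ?_
    exact (differentiable_apply j).mul (h1 j)

theorem IsP.continuous {d : ℕ} {f : (Fin n → ℂ) → ℂ} (hf : IsP d f) : Continuous f :=
  hf.differentiable.continuous

theorem IsP.affine (a : Fin n → ℂ) (ρ : ℂ) : ∀ {d : ℕ} {f : (Fin n → ℂ) → ℂ}, IsP d f →
    IsP d (fun x => f (a + ρ • x))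
  | 0, f, hf => by
    have hf : f = 0 := hf
    rw [hf]; rfl
  | d + 1, f, ⟨c, G, hG, hf⟩ => by
    have h1 := fun j => IsP.affine a ρ (hG j)
    have h2 : IsP (d + 1) (fun x => ∑ j, a j * G j (a + ρ • x)) :=
      IsP.sum _ _ fun j _ => ((h1 j).cmul (a j)).succ
    have h3 : IsP (d + 1) (fun x => ∑ j, x j * (ρ * G j (a + ρ • x))) :=
      IsP.sum _ _ fun j _ => ((h1 j).cmul ρ).mulX j
    convert ((IsP.const d c).add h2).add h3 using 1
    ext x
    simp only [hf, Pi.add_apply, Pi.smul_apply, smul_eq_mul, add_assoc, ← Finset.sum_add_distrib]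
    congr 1; refine Finset.sum_congr rfl fun j _ => by ring

theorem IsP.transl (a : Fin n → ℂ) {d : ℕ} {f : (Fin n → ℂ) → ℂ} (hf : IsP d f) :
    IsP d (fun x => f (x + a)) := by
  simpa [add_comm] using hf.affine a 1

theorem IsP.diff (a : Fin n → ℂ) : ∀ {d : ℕ} {f : (Fin n → ℂ) → ℂ}, IsP (d + 1) f →
    IsP d (fun x => f (x + a) - f x)
  | 0, f, ⟨c, G, hG, hf⟩ => by
    have h : ∀ j, G j = 0 := hG
    show _ = 0
    ext x; simp [hf, h]
  | d + 1, f, ⟨c, G, hG, hf⟩ => by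
    have h1 := fun j => IsP.diff a (hG j)
    have h2 : IsP (d + 1) (fun x => ∑ j, x j * (G j (x + a) - G j x)) :=
      IsP.sum _ _ fun j _ => (h1 j).mulX j
    have h3 : IsP (d + 1) (fun x => ∑ j, a j * G j (x + a)) :=
      IsP.sum _ _ fun j _ => ((hG j).transl a).cmul _
    convert h2.add h3 using 1
    ext x
    simp only [hf, Pi.add_apply, ← Finset.sum_add_distrib, add_sub_add_left_eq_sub,
      ← Finset.sum_sub_distrib]
    refine Finset.sum_congr rfl fun j _ => by ring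

theorem IsP.bound : ∀ {d : ℕ} {f : (Fin n → ℂ) → ℂ}, IsP d f →
    ∃ A : ℝ, 0 ≤ A ∧ ∀ x, ‖f x‖ * (1 + ‖x‖) ≤ A * (1 + ‖x‖) ^ d
  | 0, f, hf => by
    have hf : f = 0 := hf
    exact ⟨0, le_rfl, fun x => by simp [hf]⟩
  | d + 1, f, ⟨c, G, hG, hf⟩ => by
    choose A hA0 hA using fun j => IsP.bound (hG j)
    refine ⟨‖c‖ + ∑ j, A j, add_nonneg (norm_nonneg _) (Finset.sum_nonneg fun j _ => hA0 j),
      fun x => ?_⟩
    have hx : 1 ≤ 1 + ‖x‖ := by linarith [norm_nonneg x]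
    have h1 : ‖f x‖ ≤ ‖c‖ + ∑ j, ‖x j * G j x‖ := by
      rw [hf]; exact (norm_add_le _ _).trans (by gcongr; exact norm_sum_le _ _)
    have h2 : ∀ j, ‖x j * G j x‖ ≤ A j * (1 + ‖x‖) ^ d := fun j => by
      rw [norm_mul]
      have := norm_le_pi_norm x j
      calc ‖x j‖ * ‖G j x‖ ≤ (1 + ‖x‖) * ‖G j x‖ := by gcongr; linarith
        _ ≤ _ := by rw [mul_comm]; exact hA j x
    have h3 : ‖c‖ ≤ ‖c‖ * (1 + ‖x‖) ^ d := le_mul_of_one_le_right (norm_nonneg _) (one_le_pow₀ hx)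
    have h4 : ‖f x‖ ≤ (‖c‖ + ∑ j, A j) * (1 + ‖x‖) ^ d := by
      rw [add_mul, Finset.sum_mul]
      exact h1.trans (add_le_add h3 (Finset.sum_le_sum fun j _ => h2 j))
    rw [pow_succ, ← mul_assoc]
    gcongr

theorem IsP.bound' {d : ℕ} {f : (Fin n → ℂ) → ℂ} (hf : IsP d f) :
    ∃ A : ℝ, 0 ≤ A ∧ ∀ x, ‖f x‖ ≤ A * (1 + ‖x‖) ^ d := by
  obtain ⟨A, hA0, hA⟩ := hf.bound
  refine ⟨A, hA0, fun x => le_trans ?_ (hA x)⟩
  exact le_mul_of_one_le_right (norm_nonneg _) (by linarith [norm_nonneg x])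

open Polynomial in
theorem IsP.line (a v : Fin n → ℂ) : ∀ {d : ℕ} {f : (Fin n → ℂ) → ℂ}, IsP d f →
    ∃ q : ℂ[X], q.degree < d ∧ ∀ s, q.eval s = f (a + s • v)
  | 0, f, hf => by
    have hf : f = 0 := hf
    exact ⟨0, by simp, fun s => by simp [hf]⟩
  | d + 1, f, ⟨c, G, hG, hf⟩ => by
    choose q hq hq' using fun j => IsP.line a v (hG j)
    refine ⟨C c + ∑ j, (C (a j) + C (v j) * X) * q j, ?_, fun s => ?_⟩
    · refine (degree_add_le _ _).trans_lt (max_lt ?_ ?_)
      · exact degree_C_le.trans_lt (by exact_mod_cast Nat.succ_pos d)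
      · refine (degree_sum_le _ _).trans_lt ?_
        rw [Finset.sup_lt_iff (by exact WithBot.bot_lt_coe _)]
        intro j _
        have h1 : (C (a j) + C (v j) * X : ℂ[X]).degree ≤ 1 := by
          rw [add_comm]; exact degree_linear_le
        refine (degree_mul_le _ _).trans_lt ?_
        calc _ ≤ 1 + (q j).degree := by gcongr
          _ < 1 + (d : WithBot ℕ) := WithBot.add_lt_add_left (by simp) (hq j)
          _ = _ := by push_cast; rw [add_comm]
    · simp only [hf, eval_add, eval_C, eval_finset_sum, eval_mul, eval_X, hq', Pi.add_apply,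
        Pi.smul_apply, smul_eq_mul]
      congr 1; refine Finset.sum_congr rfl fun j _ => by ring

theorem IsP.top : ∀ {d : ℕ} {f : (Fin n → ℂ) → ℂ}, IsP (d + 1) f →
    ∃ t : (Fin n → ℂ) → ℂ, IsP (d + 1) t ∧ (∀ (c : ℂ) x, t (c • x) = c ^ d * t x) ∧ IsP d (f - t)
  | 0, f, ⟨c, G, hG, hf⟩ => by
    have h : ∀ j, G j = 0 := hG
    refine ⟨fun _ => c, IsP.const 0 c, fun _ _ => by simp, ?_⟩
    show _ = 0
    ext x; simp [hf, h]
  | d + 1, f, ⟨c, G, hG, hf⟩ => by
    choose t ht ht' ht'' using fun j => IsP.top (hG j)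
    refine ⟨fun x => ∑ j, x j * t j x, IsP.sum _ _ fun j _ => (ht j).mulX j, fun a x => ?_, ?_⟩
    · simp only [Pi.smul_apply, smul_eq_mul, ht', Finset.mul_sum]
      refine Finset.sum_congr rfl fun j _ => by ring
    · refine ⟨c, fun j => G j - t j, ht'', ?_⟩
      ext x
      simp only [hf, Pi.sub_apply, mul_sub, Finset.sum_sub_distrib]; ring

instance Vp_fd : ∀ d : ℕ, FiniteDimensional ℂ (Vp n d)
  | 0 => by
    have : Vp n 0 = ⊥ := by
      ext f; rw [mem_Vp, Submodule.mem_bot]; rfl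
    rw [this]; infer_instance
  | d + 1 => by
    have := Vp_fd d
    let L : (ℂ × (Fin n → Vp n d)) →ₗ[ℂ] ((Fin n → ℂ) → ℂ) :=
      { toFun := fun p x => p.1 + ∑ j, x j * (p.2 j : (Fin n → ℂ) → ℂ) x
        map_add' := fun p q => by
          ext x; simp [mul_add, Finset.sum_add_distrib]; ring
        map_smul' := fun a p => by
          ext x; simp only [Prod.smul_fst, smul_eq_mul, Prod.smul_snd, Pi.smul_apply,
            Submodule.coe_smul, RingHom.id_apply, mul_add, Finset.mul_sum]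
          congr 1; refine Finset.sum_congr rfl fun j _ => by ring }
    have h : Vp n (d + 1) ≤ LinearMap.range L := by
      rintro f ⟨c, G, hG, hf⟩
      exact ⟨(c, fun j => ⟨G j, hG j⟩), hf.symm⟩
    exact Submodule.finiteDimensional_of_le h

theorem IsP.of_tendsto {d : ℕ} {α : Type*} {l : Filter α} [l.NeBot] {f : α → (Fin n → ℂ) → ℂ}
    {g : (Fin n → ℂ) → ℂ} (hf : ∀ᶠ k in l, IsP d (f k))
    (h : ∀ x, Tendsto (fun k => f k x) l (𝓝 (g x))) : IsP d g := by
  have hc : IsClosed (Vp n d : Set ((Fin n → ℂ) → ℂ)) := (Vp n d).closed_of_finiteDimensional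
  exact hc.mem_of_tendsto (tendsto_pi_nhds.mpr h) hf

theorem exists_isP (Q : MvPolynomial (Fin n) ℂ) :
    ∃ d, IsP d (fun x => MvPolynomial.eval x Q) := by
  induction Q using MvPolynomial.induction_on with
  | C a => exact ⟨1, by simpa using IsP.const 0 a⟩
  | add p q hp hq =>
    obtain ⟨d, hd⟩ := hp
    obtain ⟨e, he⟩ := hq
    refine ⟨max d e, ?_⟩
    convert (hd.mono (le_max_left _ _)).add (he.mono (le_max_right _ _)) using 1
    ext x; simp
  | mul_X p i hp =>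
    obtain ⟨d, hd⟩ := hp
    refine ⟨d + 1, ?_⟩
    convert hd.mulX i using 1
    ext x; simp [mul_comm]

/-- a polynomial function with many zeros on a line vanishes on the line -/
theorem IsP.line_zero {d : ℕ} {f : (Fin n → ℂ) → ℂ} (hf : IsP d f) (a v : Fin n → ℂ)
    (Z : Finset ℂ) (hZ : d ≤ Z.card) (h : ∀ s ∈ Z, f (a + s • v) = 0) (s : ℂ) :
    f (a + s • v) = 0 := by
  obtain ⟨q, hq, hq'⟩ := hf.line a v
  have : q = 0 := by
    refine Polynomial.eq_zero_of_degree_lt_of_eval_finset_eq_zero Z ?_ fun x hx => ?_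
    · exact hq.trans_le (by exact_mod_cast hZ)
    · rw [hq', h x hx]
  rw [← hq', this, Polynomial.eval_zero]

theorem IsP.line_zero' {d : ℕ} {f : (Fin n → ℂ) → ℂ} (hf : IsP d f) (a v : Fin n → ℂ)
    (Z : Set ℂ) (hZ : Z.Infinite) (h : ∀ s ∈ Z, f (a + s • v) = 0) (s : ℂ) :
    f (a + s • v) = 0 := by
  obtain ⟨F, hF, hc⟩ := hZ.exists_subset_card_eq d
  exact hf.line_zero a v F hc.ge (fun s hs => h s (hF hs)) s

theorem IsP.grid {d : ℕ} {f : (Fin n → ℂ) → ℂ} (hf : IsP d f) {α : Type*} [DecidableEq α]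
    (μ : α → Fin n → ℂ) (s : Finset α) : ∀ a : Fin n → ℂ,
    (∀ k : α → ℕ, (∀ i, k i ≤ d) → f (a + ∑ i ∈ s, (k i : ℂ) • μ i) = 0) →
    ∀ c : α → ℂ, f (a + ∑ i ∈ s, c i • μ i) = 0 := by
  induction s using Finset.induction_on with
  | empty => intro a h c; simpa using h (fun _ => 0) (fun _ => Nat.zero_le _)
  | insert b s hb ih =>
    intro a h c
    have h1 : ∀ j : ℕ, j ≤ d → f ((a + ∑ i ∈ s, c i • μ i) + (j : ℂ) • μ b) = 0 := by
      intro j hj
      have := ih (a + (j : ℂ) • μ b) (fun k hk => ?_) c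
      · rw [← this]; congr 1; abel
      · have h2 := h (Function.update k b j) (fun i => by
          by_cases hi : i = b
          · subst hi; simpa using hj
          · simpa [Function.update_of_ne hi] using hk i)
        rw [Finset.sum_insert hb, Function.update_self] at h2
        rw [← h2, add_assoc]
        congr 3
        refine Finset.sum_congr rfl fun i hi => ?_
        rw [Function.update_of_ne (ne_of_mem_of_not_mem hi hb)]
    have h2 := hf.line_zero (a + ∑ i ∈ s, c i • μ i) (μ b)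
      ((Finset.range (d + 1)).image (Nat.cast : ℕ → ℂ))
      (by rw [Finset.card_image_of_injective _ Nat.cast_injective]; simp) (by
        intro z hz
        obtain ⟨j, hj, rfl⟩ := Finset.mem_image.mp hz
        exact h1 j (by simpa [Nat.lt_succ_iff] using hj)) (c b)
    rw [Finset.sum_insert hb, ← h2]; congr 1; abel

/-- Harnack type bound for zero-free polynomial functions -/
theorem IsP.harnack {d : ℕ} {f : (Fin n → ℂ) → ℂ} (hf : IsP d f) (x : Fin n → ℂ) {r : ℝ}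
    (hr : 0 < r) (h : ∀ η : Fin n → ℂ, ‖η‖ < r → f (x + η) ≠ 0) (η : Fin n → ℂ) (hη : ‖η‖ ≤ r) :
    ‖f (x + η)‖ ≤ 2 ^ d * ‖f x‖ := by
  obtain ⟨q, hq, hq'⟩ := hf.line x η
  have h0 : q.eval 0 = f x := by simp [hq']
  have h1 : q.eval 1 = f (x + η) := by simp [hq']
  have hq0 : q ≠ 0 := by
    intro h'
    have := h 0 (by simpa using hr)
    rw [add_zero, ← h0, h'] at this
    simp at this
  have hroot : ∀ ρ ∈ q.roots, 1 ≤ ‖ρ‖ := by
    intro ρ hρ
    by_contra hlt
    push Not at hlt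
    have h2 : q.eval ρ = 0 := (Polynomial.mem_roots hq0).mp hρ
    rw [hq'] at h2
    refine h (ρ • η) ?_ h2
    rw [norm_smul]
    calc ‖ρ‖ * ‖η‖ ≤ ‖ρ‖ * r := by gcongr
      _ < 1 * r := by gcongr
      _ = r := one_mul r
  have hs : q.Splits := IsAlgClosed.splits q
  have hp := hs.eval_eq_prod_roots
  have hcard : q.roots.card ≤ d := by
    have h3 := Polynomial.card_roots hq0
    have := h3.trans_lt hq
    exact_mod_cast this.le
  rw [← h0, ← h1, hp 0, hp 1, norm_mul, norm_mul]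
  have key : ∀ m : Multiset ℂ, (∀ ρ ∈ m, 1 ≤ ‖ρ‖) →
      ‖(m.map (fun ρ => 1 - ρ)).prod‖ ≤ 2 ^ m.card * ‖(m.map (fun ρ => 0 - ρ)).prod‖ := by
    intro m
    induction m using Multiset.induction_on with
    | empty => simp
    | cons a m ih =>
      intro hm
      simp only [Multiset.map_cons, Multiset.prod_cons, norm_mul, Multiset.card_cons]
      have ha := hm a (Multiset.mem_cons_self _ _)
      have h4 : ‖1 - a‖ ≤ 2 * ‖0 - a‖ := by
        have := norm_sub_le 1 a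
        rw [zero_sub, norm_neg]; rw [norm_one] at this; linarith
      have h5 := ih fun ρ hρ => hm ρ (Multiset.mem_cons_of_mem hρ)
      calc _ ≤ (2 * ‖0 - a‖) * (2 ^ m.card * ‖(m.map (fun ρ => 0 - ρ)).prod‖) := by gcongr
        _ = _ := by ring
  have h6 := key q.roots hroot
  have h7 : (2 : ℝ) ^ q.roots.card ≤ 2 ^ d := pow_le_pow_right₀ (by norm_num) hcard
  calc _ ≤ ‖q.leadingCoeff‖ * (2 ^ q.roots.card * ‖(q.roots.map (fun ρ => 0 - ρ)).prod‖) := by
        gcongr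
    _ ≤ ‖q.leadingCoeff‖ * (2 ^ d * ‖(q.roots.map (fun ρ => 0 - ρ)).prod‖) := by gcongr
    _ = _ := by ring

end H661Z.EAC
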